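import Pool.Agent.P.MP_daa8d5_co.Lg.Thin

set_option autoImplicit false

namespace Pool.Agent.P.MP_daa8d5_co.Lg

open Finset

open Classical in
lemma meet_all {d : ℕ} (S : Finset (E d)) (κ : ℝ) (hκ : 0 ≤ κ) (t : ℕ) (Q : ℕ → Finset (E d))
    (hnet : ∀ i < t, ∀ H : Set (E d), Hemi H → κ < ((S.filter (fun x => x ∈ H)).card : ℝ) →
      ∃ x ∈ Q i, x ∈ H)
    (P : Finset (E d))
    (hP : ∀ H : Set (E d), Hemi H → (P : Set (E d)) ⊆ H →
      κ * (d + 1) < ((S.filter (fun x => x ∈ H)).card : ℝ)) :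
    ∃ y ∈ convexHull ℝ (P : Set (E d)), ∀ i < t, y ∈ convexHull ℝ (Q i : Set (E d)) := by
  by_contra hcon
  have hdis : Disjoint (convexHull ℝ (P : Set (E d)))
      (⋂ i ∈ Set.Iio t, convexHull ℝ (Q i : Set (E d))) :=
    Set.disjoint_left.2 fun y hy hK => hcon ⟨y, hy, fun i hi => Set.mem_iInter₂.1 hK i hi⟩
  have hcl : ∀ i, IsClosed (convexHull ℝ (Q i : Set (E d))) := fun i =>
    ((Q i).finite_toSet.isCompact_convexHull ℝ).isClosed
  have hKc : Convex ℝ (⋂ i ∈ Set.Iio t, convexHull ℝ (Q i : Set (E d))) :=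
    convex_iInter fun i => convex_iInter fun _ => convex_convexHull ℝ _
  have hKcl : IsClosed (⋂ i ∈ Set.Iio t, convexHull ℝ (Q i : Set (E d))) :=
    isClosed_iInter fun i => isClosed_iInter fun _ => hcl i
  obtain ⟨H, hH, hPH, hK⟩ := separate (convex_convexHull ℝ _)
    (P.finite_toSet.isCompact_convexHull ℝ) hKc hKcl hdis
  have hY := hP H hH ((subset_convexHull ℝ _).trans hPH)
  have hYne : (S.filter (fun x => x ∈ H)).Nonempty := by
    rw [← card_pos]
    have : (0 : ℝ) < ((S.filter (fun x => x ∈ H)).card : ℝ) := lt_of_le_of_lt (by positivity) hY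
    exact_mod_cast this
  obtain ⟨e, he, hdeep⟩ := centre _ hYne
  have heH : e ∈ H :=
    convexHull_min (fun x hx => (mem_filter.1 (mem_coe.1 hx)).2) hH.1 he
  refine hK (Set.mem_iInter₂.2 fun i hi => ?_) heH
  by_contra hne
  obtain ⟨H', hH', he', hQ⟩ := separate (A := {e}) (convex_singleton e) isCompact_singleton
    (convex_convexHull ℝ _) (hcl i)
    (Set.disjoint_singleton_left.2 hne)
  have h1 := hdeep H' hH' (he' rfl)
  have h2 : ((S.filter (fun x => x ∈ H)).filter (fun x => x ∈ H')).card ≤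
      (S.filter (fun x => x ∈ H')).card :=
    card_le_card (filter_subset_filter _ (filter_subset _ _))
  have h3 : ((S.filter (fun x => x ∈ H)).card : ℝ) ≤
      (d + 1) * ((S.filter (fun x => x ∈ H')).card : ℝ) := by
    exact_mod_cast h1.trans (Nat.mul_le_mul_left _ h2)
  have h4 : κ < ((S.filter (fun x => x ∈ H')).card : ℝ) := by
    have hd : (0 : ℝ) < d + 1 := by positivity
    nlinarith
  obtain ⟨x, hx, hxH⟩ := hnet i hi H' hH' h4
  exact hQ (subset_convexHull ℝ _ (mem_coe.2 hx)) hxH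

lemma sum_b (L a t j : ℕ) :
    (∑ i ∈ range j, (if i < t then L else a) ≤ L * t + a * j) ∧
      (j ≤ t → ∑ i ∈ range j, (if i < t then L else a) ≤ L * t) := by
  have h1 : ∀ j, ∑ i ∈ range j, (if i < t then L else a) ≤ L * min j t + a * (j - t) := by
    intro j
    induction j with
    | zero => simp
    | succ j ih =>
      rw [sum_range_succ]
      split_ifs with h
      · rw [min_eq_left (by omega), show j + 1 - t = 0 by omega]
        rw [min_eq_left (by omega), show j - t = 0 by omega] at ih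
        rw [Nat.mul_succ]; omega
      · rw [min_eq_right (by omega), show j + 1 - t = (j - t) + 1 by omega]
        rw [min_eq_right (by omega)] at ih
        rw [Nat.mul_succ]; omega
  refine ⟨(h1 j).trans ?_, fun hj => (h1 j).trans ?_⟩
  · exact Nat.add_le_add (Nat.mul_le_mul_left _ (min_le_right _ _))
      (Nat.mul_le_mul_left _ (Nat.sub_le _ _))
  · rw [show j - t = 0 by omega, Nat.mul_zero, Nat.add_zero]
    exact Nat.mul_le_mul_left _ (min_le_right _ _)

open Classical in
lemma parts (d : ℕ) (η : ℝ) (hη : 0 < η) : ∃ C : ℕ, ∀ m t : ℕ, t < m → ∀ S : Finset (E d),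
    (((d / 2 + 1 : ℕ) : ℝ) + η) * m + C * t ≤ S.card →
    ∃ Q : ℕ → Finset (E d), (∀ j < m, Q j ⊆ S) ∧
      (∀ i < m, ∀ j < m, i ≠ j → Disjoint (Q i) (Q j)) ∧
      ∀ j < m, ∃ y ∈ convexHull ℝ (Q j : Set (E d)),
        ∀ i < t, y ∈ convexHull ℝ (Q i : Set (E d)) := by
  set a : ℕ := d / 2 + 1 with ha
  set c : ℕ := 2 ^ (d + 2) * (d + 2) with hc
  have hcpos : (0 : ℝ) < c := by rw [hc]; positivity
  have hapos : (0 : ℝ) < a := by rw [ha]; positivity
  set θ : ℝ := η / (a + η) with hθ
  have hθpos : 0 < θ := by positivity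
  set ε : ℝ := θ / (2 * c * (d + 1)) with hε
  have hεpos : 0 < ε := by positivity
  obtain ⟨L, hL⟩ := net d ε hεpos
  obtain ⟨C, hC⟩ := exists_nat_ge (2 * L * ((d + 1) * c + 1) / θ)
  refine ⟨C, fun m t htm S hS => ?_⟩
  set N : ℝ := (S.card : ℝ) with hN
  have hmpos : (0 : ℝ) < m := by exact_mod_cast (by omega : 0 < m)
  have hCt : (0 : ℝ) ≤ C * t := by positivity
  have hNC : C * t < N := by nlinarith [mul_pos (add_pos hapos hη) hmpos]
  have hNa : θ * N ≤ N - a * m := by
    have h1 : (a + η) * m ≤ N := by linarith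
    have h2 : θ * N = N - a * N / (a + η) := by rw [hθ]; field_simp; ring
    have h3 : a * m ≤ a * N / (a + η) := by
      rw [le_div_iff₀ (by positivity)]; nlinarith
    linarith
  have hkey : (ε * N + L * t) * (d + 1) * c + L * t < θ * N := by
    have h1 : ε * N * (d + 1) * c = θ * N / 2 := by rw [hε]; field_simp
    have h2 : 2 * L * ((d + 1) * c + 1) ≤ C * θ := by rwa [div_le_iff₀ hθpos] at hC
    have h3 : 2 * L * ((d + 1) * c + 1) * t ≤ C * θ * t :=
      mul_le_mul_of_nonneg_right h2 (by positivity)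
    have h4 : C * t * θ < N * θ := mul_lt_mul_of_pos_right hNC hθpos
    nlinarith
  have hNpos : 0 ≤ N := by positivity
  obtain ⟨Q, hQ, hdis⟩ := greedy S (fun j P => if j < t then
      (∀ H : Set (E d), Hemi H → ε * N + L * t < ((S.filter (fun x => x ∈ H)).card : ℝ) →
        ∃ x ∈ P, x ∈ H)
      else (∀ H : Set (E d), Hemi H → (P : Set (E d)) ⊆ H →
        (ε * N + L * t) * (d + 1) < ((S.filter (fun x => x ∈ H)).card : ℝ)))
    (fun j => if j < t then L else a) m (by
      intro j hj U hU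
      by_cases hjt : j < t
      · obtain ⟨T, hT, hTc, hTn⟩ := hL (S \ U)
        refine ⟨T, hT, by simpa [hjt] using hTc, ?_⟩
        simp only [if_pos hjt]
        intro H hH hbig
        refine hTn H hH ?_
        have hU2 : (U.card : ℝ) ≤ L * t := by exact_mod_cast hU.trans ((sum_b L a t j).2 hjt.le)
        have h1 : (S.filter (fun x => x ∈ H)).card ≤
            ((S \ U).filter (fun x => x ∈ H)).card + U.card := by
          refine (card_le_card ?_).trans (card_union_le _ _)
          intro x hx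
          by_cases hxU : x ∈ U
          · exact mem_union_right _ hxU
          · exact mem_union_left _ (mem_filter.2
              ⟨mem_sdiff.2 ⟨(mem_filter.1 hx).1, hxU⟩, (mem_filter.1 hx).2⟩)
        have h2 : ((S.filter (fun x => x ∈ H)).card : ℝ) ≤
            ((S \ U).filter (fun x => x ∈ H)).card + U.card := by exact_mod_cast h1
        have h3 : ((S \ U).card : ℝ) ≤ N := by
          rw [hN]; exact_mod_cast card_le_card sdiff_subset
        have h4 := mul_le_mul_of_nonneg_left h3 hεpos.le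
        linarith
      · have hU2 : (U.card : ℝ) ≤ L * t + a * m := by
          have := (hU.trans (sum_b L a t j).1).trans
            (Nat.add_le_add_left (Nat.mul_le_mul_left a hj.le) _)
          exact_mod_cast this
        have h1 : N ≤ ((S \ U).card : ℝ) + U.card := by
          rw [hN]; exact_mod_cast card_le_card_sdiff_add_card
        have h0 : 0 ≤ (ε * N + L * t) * (d + 1) * c := by positivity
        have hne : (S \ U).Nonempty := by
          rw [← card_pos]
          have : (0 : ℝ) < ((S \ U).card : ℝ) := by linarith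
          exact_mod_cast this
        obtain ⟨P, hP, hPc, hPn⟩ := thin (S \ U) hne
        refine ⟨P, hP, by simpa [hjt] using hPc, ?_⟩
        simp only [if_neg hjt]
        intro H hH hPH
        have h2 : ((S \ U).filter (fun x => x ∈ H)).card ≤ (S.filter (fun x => x ∈ H)).card :=
          card_le_card (filter_subset_filter _ sdiff_subset)
        have h3 : ((S \ U).card : ℝ) ≤ c * ((S.filter (fun x => x ∈ H)).card : ℝ) := by
          exact_mod_cast (hPn H hH hPH).trans (Nat.mul_le_mul_left _ h2)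
        refine lt_of_mul_lt_mul_right (a := (c : ℝ)) ?_ hcpos.le
        linarith)
  have hnet : ∀ i < t, ∀ H : Set (E d), Hemi H →
      ε * N + L * t < ((S.filter (fun x => x ∈ H)).card : ℝ) → ∃ x ∈ Q i, x ∈ H := by
    intro i hi
    have := (hQ i (by omega)).2
    simpa only [if_pos hi] using this
  have hthin : ∀ j < m, t ≤ j → ∃ y ∈ convexHull ℝ (Q j : Set (E d)),
      ∀ i < t, y ∈ convexHull ℝ (Q i : Set (E d)) := by
    intro j hj htj
    refine meet_all S (ε * N + L * t) (by positivity) t Q hnet (Q j) ?_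
    have := (hQ j hj).2
    simpa only [if_neg (not_lt.2 htj)] using this
  refine ⟨Q, fun j hj => (hQ j hj).1, hdis, fun j hj => ?_⟩
  by_cases hjt : j < t
  · obtain ⟨y, _, hy⟩ := hthin t htm le_rfl
    exact ⟨y, hy j hjt, hy⟩
  · exact hthin j hj (not_lt.1 hjt)

theorem main (d : ℕ) (η : ℝ) (hη : 0 < η) : ∃ C : ℕ, ∀ m t : ℕ, t < m →
    ∀ S : Finset (EuclideanSpace ℝ (Fin d)),
      (((d / 2 + 1 : ℕ) : ℝ) + η) * m + C * t ≤ S.card →
      ∃ c : EuclideanSpace ℝ (Fin d) → Fin m, ∃ T : Finset (Fin m), T.card = t ∧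
        ∀ j : Fin m, ∃ y ∈ convexHull ℝ {x : EuclideanSpace ℝ (Fin d) | x ∈ S ∧ c x = j},
          ∀ i ∈ T, y ∈ convexHull ℝ {x : EuclideanSpace ℝ (Fin d) | x ∈ S ∧ c x = i} := by
  classical
  obtain ⟨C, hC⟩ := parts d η hη
  refine ⟨C, fun m t htm S hS => ?_⟩
  obtain ⟨Q, hQ, hdis, hmeet⟩ := hC m t htm S hS
  let c : E d → Fin m := fun x => if h : ∃ j : Fin m, x ∈ Q j then h.choose else ⟨0, by omega⟩
  have hsub : ∀ j : Fin m, (Q j : Set (E d)) ⊆ {x | x ∈ S ∧ c x = j} := by
    intro j x hx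
    have hx' : x ∈ Q j := mem_coe.1 hx
    have hex : ∃ j : Fin m, x ∈ Q j := ⟨j, hx'⟩
    refine ⟨hQ j j.2 hx', ?_⟩
    simp only [c, dif_pos hex]
    by_contra hne
    exact disjoint_left.1 (hdis _ hex.choose.2 _ j.2 (fun h => hne (Fin.ext h)))
      hex.choose_spec hx'
  refine ⟨c, univ.filter (fun j : Fin m => j.val < t), ?_, fun j => ?_⟩
  · rw [Fin.card_filter_val_lt]; omega
  · obtain ⟨y, hy, hy2⟩ := hmeet j j.2
    exact ⟨y, convexHull_mono (hsub j) hy,
      fun i hi => convexHull_mono (hsub i) (hy2 i (mem_filter.1 hi).2)⟩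

end Pool.Agent.P.MP_daa8d5_co.Lg
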