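import Mathlib

set_option autoImplicit false

namespace Pool.Agent.P.MP_daa8d5_co.Lg

open Finset

abbrev E (d : ℕ) := EuclideanSpace ℝ (Fin d)

/-- A convex set with convex complement. -/
def Hemi {d : ℕ} (H : Set (E d)) : Prop := Convex ℝ H ∧ Convex ℝ Hᶜ

lemma radon {d : ℕ} {ι : Type*} [Fintype ι] (f : ι → E d) (h : d + 2 ≤ Fintype.card ι) :
    ∃ I : Set ι, (convexHull ℝ (f '' I) ∩ convexHull ℝ (f '' Iᶜ)).Nonempty := by
  apply Convex.radon_partition
  intro hind
  have h1 := hind.card_le_finrank_succ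
  have h2 : Module.finrank ℝ (vectorSpan ℝ (Set.range f)) ≤ Module.finrank ℝ (E d) :=
    Submodule.finrank_le _
  rw [finrank_euclideanSpace_fin] at h2
  omega

lemma hemi_no_radon {d : ℕ} {H A B : Set (E d)} (hH : Hemi H) (hA : A ⊆ H) (hB : B ⊆ Hᶜ) :
    ¬ (convexHull ℝ A ∩ convexHull ℝ B).Nonempty := by
  rintro ⟨y, h1, h2⟩
  exact (convexHull_min hB hH.2 h2) (convexHull_min hA hH.1 h1)

open Classical in
/-- The subsets of the index set cut out by hemispaces. -/
noncomputable def traces {d : ℕ} {ι : Type*} [Fintype ι] (f : ι → E d) : Finset (Finset ι) :=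
  univ.filter (fun τ => ∃ H : Set (E d), Hemi H ∧ ∀ i, i ∈ τ ↔ f i ∈ H)

lemma traces_card {d : ℕ} {ι : Type*} [Fintype ι] (f : ι → E d) (hι : 1 ≤ Fintype.card ι) :
    (traces f).card ≤ (d + 2) * Fintype.card ι ^ (d + 1) := by
  classical
  have hvc : (traces f).vcDim ≤ d + 1 := by
    unfold Finset.vcDim
    refine Finset.sup_le fun s hs => ?_
    rw [mem_shatterer] at hs
    by_contra hlt
    obtain ⟨I, hI⟩ := radon (fun i : s => f i) (by rw [Fintype.card_coe]; omega)
    obtain ⟨u, hu, hsu⟩ := hs (t := s.filter (fun i => ∃ h : i ∈ s, (⟨i, h⟩ : s) ∈ I))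
      (filter_subset _ _)
    obtain ⟨H, hH, hH2⟩ := (mem_filter.1 hu).2
    refine hemi_no_radon hH ?_ ?_ hI
    · rintro _ ⟨i, hi, rfl⟩
      have : (i : ι) ∈ s ∩ u := by rw [hsu]; exact mem_filter.2 ⟨i.2, i.2, hi⟩
      exact (hH2 _).1 (mem_inter.1 this).2
    · rintro _ ⟨i, hi, rfl⟩ hin
      have : (i : ι) ∈ s ∩ u := mem_inter.2 ⟨i.2, (hH2 _).2 hin⟩
      rw [hsu] at this
      obtain ⟨_, _, h⟩ := mem_filter.1 this
      exact hi h
  calc (traces f).card ≤ (traces f).shatterer.card := card_le_card_shatterer _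
    _ ≤ ∑ k ∈ Iic (traces f).vcDim, (Fintype.card ι).choose k := card_shatterer_le_sum_vcDim
    _ ≤ ∑ k ∈ Iic (d + 1), (Fintype.card ι).choose k :=
        sum_le_sum_of_subset (Iic_subset_Iic.2 hvc)
    _ ≤ ∑ k ∈ Iic (d + 1), Fintype.card ι ^ (d + 1) := by
        refine sum_le_sum fun k hk => ?_
        exact (Nat.choose_le_pow _ _).trans (Nat.pow_le_pow_right hι (mem_Iic.1 hk))
    _ = (d + 2) * Fintype.card ι ^ (d + 1) := by simp

/-- Weight of a trace with respect to a choice of halves. -/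
noncomputable def wt {L : ℕ} (σ : Fin L → Bool) (τ : Finset (Fin L × Bool)) : ℝ :=
  ∏ i, (if (i, σ i) ∈ τ then 0 else if (i, !σ i) ∈ τ then 2 else 1)

lemma wt_nonneg {L : ℕ} (σ : Fin L → Bool) (τ : Finset (Fin L × Bool)) : 0 ≤ wt σ τ :=
  prod_nonneg fun i _ => by split_ifs <;> norm_num

lemma sum_wt {L : ℕ} (τ : Finset (Fin L × Bool)) : ∑ σ : Fin L → Bool, wt σ τ ≤ 2 ^ L := by
  have h := prod_univ_sum (fun _ : Fin L => (univ : Finset Bool))
    (fun i b => (if (i, b) ∈ τ then (0 : ℝ) else if (i, !b) ∈ τ then 2 else 1))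
  rw [Fintype.piFinset_univ] at h
  unfold wt
  rw [← h]
  calc _ ≤ ∏ _i : Fin L, (2 : ℝ) := by
        refine prod_le_prod (fun i _ => sum_nonneg fun b _ => by split_ifs <;> norm_num) ?_
        intro i _
        simp only [Fintype.sum_bool, Bool.not_true, Bool.not_false]
        split_ifs <;> norm_num
    _ = 2 ^ L := by simp

/-- Splitting a doubled sample into its two halves. -/
def halves {L : ℕ} {α : Type*} (σ : Fin L → Bool) :
    (Fin L × Bool → α) ≃ (Fin L → α) × (Fin L → α) where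
  toFun h := (fun i => h (i, σ i), fun i => h (i, !σ i))
  invFun q := fun x => if x.2 = σ x.1 then q.1 x.1 else q.2 x.1
  left_inv h := by
    funext ⟨i, b⟩
    cases hb : σ i <;> cases b <;> simp [hb]
  right_inv q := by
    ext i <;> simp

open Classical in
lemma net_count {d L : ℕ} {α : Type*} [Fintype α] (p : α → E d) (ε : ℝ) (hε : 0 ≤ ε) (hL : 1 ≤ L)
    (hne : 0 < Fintype.card α)
    (hall : ∀ f : Fin L → α, ∃ H : Set (E d), Hemi H ∧ (∀ i, p (f i) ∉ H) ∧
      ε * Fintype.card α ≤ ((univ.filter (fun x => p x ∈ H)).card : ℝ)) :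
    (1 + ε) ^ L ≤ (d + 2) * (2 * L : ℝ) ^ (d + 1) := by
  choose Hf hH hmiss hbig using hall
  set n : ℝ := (Fintype.card α : ℝ) with hn
  have hnpos : 0 < n := by rw [hn]; exact_mod_cast hne
  have low : ∀ σ : Fin L → Bool, n ^ L * ((1 + ε) * n) ^ L ≤
      ∑ h : Fin L × Bool → α, ∑ τ ∈ traces (fun x => p (h x)), wt σ τ := by
    intro σ
    have step : ∀ h : Fin L × Bool → α,
        (∏ i, (if p ((halves σ h).2 i) ∈ Hf (halves σ h).1 then (2 : ℝ) else 1)) ≤
          ∑ τ ∈ traces (fun x => p (h x)), wt σ τ := by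
      intro h
      have hmem : univ.filter (fun x => p (h x) ∈ Hf (halves σ h).1) ∈
          traces (fun x => p (h x)) :=
        mem_filter.2 ⟨mem_univ _, Hf (halves σ h).1, hH _, fun i => by simp⟩
      refine le_trans (le_of_eq ?_) (single_le_sum (fun τ _ => wt_nonneg σ τ) hmem)
      unfold wt
      refine prod_congr rfl fun i _ => ?_
      have h1 : p (h (i, σ i)) ∉ Hf (halves σ h).1 := hmiss (halves σ h).1 i
      simp only [mem_filter, mem_univ, true_and, h1, if_false]
      rfl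
    refine le_trans ?_ (sum_le_sum fun h _ => step h)
    rw [Fintype.sum_equiv (halves σ) _
      (fun q : (Fin L → α) × (Fin L → α) =>
        ∏ i, (if p (q.2 i) ∈ Hf q.1 then (2 : ℝ) else 1)) (fun h => rfl), Fintype.sum_prod_type]
    have inner : ∀ f : Fin L → α, ((1 + ε) * n) ^ L ≤
        ∑ g : Fin L → α, ∏ i, (if p (g i) ∈ Hf f then (2 : ℝ) else 1) := by
      intro f
      have h := prod_univ_sum (fun _ : Fin L => (univ : Finset α))
        (fun _ x => (if p x ∈ Hf f then (2 : ℝ) else 1))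
      rw [Fintype.piFinset_univ] at h
      rw [← h, prod_const, card_univ, Fintype.card_fin]
      refine pow_le_pow_left₀ (by positivity) ?_ _
      have : ∑ x : α, (if p x ∈ Hf f then (2 : ℝ) else 1) =
          n + ((univ.filter (fun x => p x ∈ Hf f)).card : ℝ) := by
        rw [card_filter, hn]
        push_cast
        rw [← card_univ, card_eq_sum_ones]
        push_cast
        rw [← sum_add_distrib]
        refine sum_congr rfl fun x _ => ?_
        split_ifs <;> norm_num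
      rw [this]
      have := hbig f
      linarith
    calc n ^ L * ((1 + ε) * n) ^ L = ∑ _f : Fin L → α, ((1 + ε) * n) ^ L := by
          simp [hn]
      _ ≤ _ := sum_le_sum fun f _ => inner f
  have up : ∑ σ : Fin L → Bool, ∑ h : Fin L × Bool → α, ∑ τ ∈ traces (fun x => p (h x)), wt σ τ ≤
      n ^ (L * 2) * ((d + 2) * (2 * L : ℝ) ^ (d + 1) * 2 ^ L) := by
    rw [sum_comm]
    calc _ ≤ ∑ _h : Fin L × Bool → α, ((d + 2) * (2 * L : ℝ) ^ (d + 1) * 2 ^ L) := by
          refine sum_le_sum fun h _ => ?_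
          rw [sum_comm]
          calc _ ≤ ∑ _τ ∈ traces (fun x => p (h x)), (2 : ℝ) ^ L :=
                sum_le_sum fun τ _ => sum_wt τ
            _ = ((traces (fun x => p (h x))).card : ℝ) * 2 ^ L := by simp
            _ ≤ _ := by
                have := traces_card (fun x => p (h x)) (by simp; omega)
                have h2 : ((traces (fun x => p (h x))).card : ℝ) ≤
                    (d + 2) * (2 * L : ℝ) ^ (d + 1) := by
                  have h3 : (Fintype.card (Fin L × Bool) : ℝ) = 2 * L := by simp; ring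
                  rw [← h3]; exact_mod_cast this
                gcongr
      _ = _ := by simp [hn]
  have tot : (2 : ℝ) ^ L * (n ^ L * ((1 + ε) * n) ^ L) ≤
      n ^ (L * 2) * ((d + 2) * (2 * L : ℝ) ^ (d + 1) * 2 ^ L) := by
    refine le_trans ?_ up
    calc (2 : ℝ) ^ L * (n ^ L * ((1 + ε) * n) ^ L)
        = ∑ _σ : Fin L → Bool, n ^ L * ((1 + ε) * n) ^ L := by simp
      _ ≤ _ := sum_le_sum fun σ _ => low σ
  have hpos : (0 : ℝ) < 2 ^ L * n ^ (L * 2) := by positivity
  refine le_of_mul_le_mul_left ?_ hpos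
  calc 2 ^ L * n ^ (L * 2) * (1 + ε) ^ L = (2 : ℝ) ^ L * (n ^ L * ((1 + ε) * n) ^ L) := by
        rw [mul_pow, pow_mul]; ring
    _ ≤ _ := tot
    _ = _ := by ring

lemma exists_L (d : ℕ) (ε : ℝ) (hε : 0 < ε) :
    ∃ L : ℕ, 1 ≤ L ∧ (d + 2) * (2 * L : ℝ) ^ (d + 1) < (1 + ε) ^ L := by
  have h := tendsto_pow_const_div_const_pow_of_one_lt (d + 1) (r := 1 + ε) (by linarith)
  have hc : (0 : ℝ) < 1 / ((d + 2) * 2 ^ (d + 1)) := by positivity
  obtain ⟨L, hL⟩ := ((h.eventually (gt_mem_nhds hc)).and (Filter.eventually_ge_atTop 1)).exists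
  refine ⟨L, hL.2, ?_⟩
  have h1 := hL.1
  rw [div_lt_div_iff₀ (by positivity) (by positivity)] at h1
  calc (d + 2) * (2 * L : ℝ) ^ (d + 1) = (L : ℝ) ^ (d + 1) * ((d + 2) * 2 ^ (d + 1)) := by
        rw [mul_pow]; ring
    _ < _ := by simpa using h1

open Classical in
/-- Epsilon-nets for hemispaces, of size depending only on `d` and `ε`. -/
theorem net (d : ℕ) (ε : ℝ) (hε : 0 < ε) : ∃ L : ℕ, ∀ R : Finset (E d), ∃ T ⊆ R, T.card ≤ L ∧
    ∀ H : Set (E d), Hemi H → ε * R.card < ((R.filter (fun x => x ∈ H)).card : ℝ) →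
      ∃ x ∈ T, x ∈ H := by
  obtain ⟨L, hL, hlt⟩ := exists_L d ε hε
  refine ⟨L, fun R => ?_⟩
  rcases R.eq_empty_or_nonempty with rfl | hR
  · exact ⟨∅, subset_rfl, by simp, fun H _ h => by simp at h⟩
  by_contra hcon
  refine absurd (net_count (L := L) (fun x : R => (x : E d)) ε hε.le hL
    (by rw [Fintype.card_coe]; exact hR.card_pos) ?_) (not_le.2 hlt)
  intro f
  by_contra hf
  refine hcon ⟨univ.image (fun i => (f i : E d)), ?_, ?_, ?_⟩
  · intro x hx
    obtain ⟨i, _, rfl⟩ := mem_image.1 hx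
    exact (f i).2
  · exact card_image_le.trans (by simp)
  · intro H hH hbig
    by_contra hno
    refine hf ⟨H, hH, fun i hi => hno ⟨_, mem_image_of_mem _ (mem_univ i), hi⟩, ?_⟩
    rw [Fintype.card_coe]
    refine hbig.le.trans (le_of_eq ?_)
    congr 1
    symm
    refine card_bij (fun (x : R) _ => (x : E d)) ?_ ?_ ?_
    · intro x hx; exact mem_filter.2 ⟨x.2, (mem_filter.1 hx).2⟩
    · intro x _ y _ h; exact Subtype.ext h
    · intro y hy
      exact ⟨⟨y, (mem_filter.1 hy).1⟩, mem_filter.2 ⟨mem_univ _, (mem_filter.1 hy).2⟩, rfl⟩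

end Pool.Agent.P.MP_daa8d5_co.Lg
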