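import Pool.Agent.P.MP_daa8d5_co.Lg.Net

set_option autoImplicit false

namespace Pool.Agent.P.MP_daa8d5_co.Lg

open Finset

lemma radon_small {d : ℕ} (f : Fin (d + 2) → E d) :
    ∃ I : Finset (Fin (d + 2)), I.card ≤ d / 2 + 1 ∧
      (convexHull ℝ (f '' (I : Set (Fin (d + 2)))) ∩
        convexHull ℝ (f '' (I : Set (Fin (d + 2)))ᶜ)).Nonempty := by
  classical
  obtain ⟨I, hI⟩ := radon f (by simp)
  have hc := card_add_card_compl I.toFinset
  rw [Fintype.card_fin] at hc
  by_cases h : I.toFinset.card ≤ d / 2 + 1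
  · exact ⟨I.toFinset, h, by simpa using hI⟩
  · refine ⟨I.toFinsetᶜ, by omega, ?_⟩
    rw [Set.inter_comm] at hI
    simpa using hI

open Classical in
/-- A small set of points all of whose hemispaces are heavy. -/
theorem thin {d : ℕ} (R : Finset (E d)) (hR : R.Nonempty) :
    ∃ P ⊆ R, P.card ≤ d / 2 + 1 ∧ ∀ H : Set (E d), Hemi H → (P : Set (E d)) ⊆ H →
      R.card ≤ 2 ^ (d + 2) * (d + 2) * (R.filter (fun x => x ∈ H)).card := by
  by_contra hcon
  have hall : ∀ P : Finset (E d), ∃ H : Set (E d), P ⊆ R → P.card ≤ d / 2 + 1 →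
      Hemi H ∧ (P : Set (E d)) ⊆ H ∧
        2 ^ (d + 2) * (d + 2) * (R.filter (fun x => x ∈ H)).card < R.card := by
    intro P
    by_contra h
    refine hcon ⟨P, ?_, ?_, ?_⟩
    · by_contra h1; exact h ⟨∅, fun h2 => absurd h2 h1⟩
    · by_contra h1; exact h ⟨∅, fun _ h2 => absurd h2 h1⟩
    · intro H hH hP
      by_contra h1
      exact h ⟨H, fun _ _ => ⟨hH, hP, not_le.1 h1⟩⟩
  choose HP hHP using hall
  set n := R.card with hn
  set c := 2 ^ (d + 2) * (d + 2) with hc
  let Ω : Finset (Fin (d + 2) → E d) := Fintype.piFinset (fun _ => R)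
  let B : Finset (Fin (d + 2)) × Fin (d + 2) → Finset (Fin (d + 2) → E d) := fun q =>
    Ω.filter (fun f => q.1.card ≤ d / 2 + 1 ∧ q.2 ∉ q.1 ∧ f q.2 ∈ HP (q.1.image f))
  have hcover : Ω ⊆ univ.biUnion B := by
    intro f hf
    obtain ⟨I, hI, hrad⟩ := radon_small f
    have hsub : I.image f ⊆ R := by
      intro x hx
      obtain ⟨i, _, rfl⟩ := mem_image.1 hx
      exact Fintype.mem_piFinset.1 hf i
    obtain ⟨h1, h2, _⟩ := hHP (I.image f) hsub (card_image_le.trans hI)
    by_contra hno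
    refine hemi_no_radon h1 (by simpa using h2) ?_ hrad
    rintro _ ⟨i, hi, rfl⟩ hin
    exact hno (mem_biUnion.2 ⟨(I, i), mem_univ _, mem_filter.2 ⟨hf, hI, by simpa using hi, hin⟩⟩)
  obtain ⟨x0, hx0⟩ := hR
  have hB : ∀ q, c * (B q).card ≤ n ^ (d + 1) * (n - 1) := by
    rintro ⟨I, i⟩
    let Ω' : Finset (Fin (d + 2) → E d) :=
      Fintype.piFinset (fun j => if j = i then {x0} else R)
    have hΩ' : Ω'.card = n ^ (d + 1) := by
      rw [Fintype.card_piFinset]
      rw [← mul_prod_erase univ _ (mem_univ i)]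
      simp only [if_true, card_singleton, one_mul]
      rw [prod_congr rfl (g := fun _ => n)]
      · simp
      · intro j hj
        rw [if_neg (ne_of_mem_erase hj)]
    have hmap : ∀ f ∈ B (I, i), Function.update f i x0 ∈ Ω' := by
      intro f hf
      refine Fintype.mem_piFinset.2 fun j => ?_
      by_cases hj : j = i
      · subst hj; simp
      · rw [if_neg hj, Function.update_of_ne hj]
        exact Fintype.mem_piFinset.1 (mem_filter.1 hf).1 j
    rw [card_eq_sum_card_fiberwise (f := fun f => Function.update f i x0) (s := B (I, i)) (t := Ω')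
        (fun f hf => mem_coe.2 (hmap f (mem_coe.1 hf))),
      mul_sum, ← hΩ', ← smul_eq_mul, ← sum_const]
    refine sum_le_sum fun g _ => ?_
    rcases ((B (I, i)).filter (fun f => Function.update f i x0 = g)).eq_empty_or_nonempty with
      he | ⟨f0, hf0⟩
    · rw [he]; simp
    obtain ⟨hf0B, hf0g⟩ := mem_filter.1 hf0
    obtain ⟨hf0Ω, hI, hiI, _⟩ := mem_filter.1 hf0B
    have himg : ∀ f : Fin (d + 2) → E d, Function.update f i x0 = g → I.image f = I.image g := by
      intro f hf
      refine image_congr fun j hj => ?_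
      have hji : j ≠ i := fun h => hiI (h ▸ hj)
      rw [← hf, Function.update_of_ne hji]
    have hsub : I.image g ⊆ R := by
      rw [← himg f0 hf0g]
      intro x hx
      obtain ⟨j, _, rfl⟩ := mem_image.1 hx
      exact Fintype.mem_piFinset.1 hf0Ω j
    obtain ⟨_, _, h3⟩ := hHP (I.image g) hsub (card_image_le.trans hI)
    have hle : ((B (I, i)).filter (fun f => Function.update f i x0 = g)).card ≤
        (R.filter (fun x => x ∈ HP (I.image g))).card := by
      refine card_le_card_of_injOn (fun f => f i) ?_ ?_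
      · intro f hf
        obtain ⟨hfB, hfg⟩ := mem_filter.1 (mem_coe.1 hf)
        obtain ⟨hfΩ, _, _, hin⟩ := mem_filter.1 hfB
        refine mem_coe.2 (mem_filter.2 ⟨Fintype.mem_piFinset.1 hfΩ i, ?_⟩)
        rw [← himg f hfg]; exact hin
      · intro f hf f' hf' h
        have e1 := (mem_filter.1 (mem_coe.1 hf)).2
        have e2 := (mem_filter.1 (mem_coe.1 hf')).2
        funext j
        by_cases hj : j = i
        · subst hj; exact h
        · have := congrFun (e1.trans e2.symm) j
          simpa [Function.update_of_ne hj] using this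
    have := Nat.mul_le_mul_left c hle
    omega
  have hΩ : Ω.card = n ^ (d + 2) := by simp [Ω, hn]
  have h1 : n ^ (d + 2) ≤ ∑ q, (B q).card := hΩ ▸ (card_le_card hcover).trans card_biUnion_le
  have h2 : c * ∑ q, (B q).card ≤ c * (n ^ (d + 1) * (n - 1)) := by
    rw [mul_sum]
    calc _ ≤ ∑ _q : Finset (Fin (d + 2)) × Fin (d + 2), n ^ (d + 1) * (n - 1) :=
          sum_le_sum fun q _ => hB q
      _ = _ := by simp [hc]
  have hcpos : 0 < c := by positivity
  have h3 := h1.trans (Nat.le_of_mul_le_mul_left h2 hcpos)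
  have hnpos : 0 < n := card_pos.2 ⟨x0, hx0⟩
  rw [pow_succ] at h3
  have h4 := Nat.le_of_mul_le_mul_left h3 (by positivity)
  omega

open Classical in
/-- Centre points. -/
theorem centre {d : ℕ} (Y : Finset (E d)) (hY : Y.Nonempty) :
    ∃ e ∈ convexHull ℝ (Y : Set (E d)), ∀ H : Set (E d), Hemi H → e ∈ H →
      Y.card ≤ (d + 1) * (Y.filter (fun x => x ∈ H)).card := by
  let s : Finset (Finset (E d)) := Y.powerset.filter (fun Z => (d + 1) * (Y \ Z).card < Y.card)
  have hh := Convex.helly_theorem' (𝕜 := ℝ) (F := fun Z : Finset (E d) =>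
    convexHull ℝ (Z : Set (E d))) (s := s) (fun _ _ => convex_convexHull ℝ _) (by
      intro I hI hcard
      rw [finrank_euclideanSpace_fin] at hcard
      have hlt : (I.biUnion (fun Z => Y \ Z)).card < Y.card := by
        have h1 : (I.biUnion (fun Z => Y \ Z)).card ≤ ∑ Z ∈ I, (Y \ Z).card := card_biUnion_le
        have h2 : (d + 1) * ∑ Z ∈ I, (Y \ Z).card ≤ I.card * (Y.card - 1) := by
          rw [mul_sum, ← smul_eq_mul, ← sum_const]
          refine sum_le_sum fun Z hZ => ?_
          have := (mem_filter.1 (hI hZ)).2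
          omega
        have h3 : I.card * (Y.card - 1) ≤ (d + 1) * (Y.card - 1) := Nat.mul_le_mul_right _ hcard
        have h4 := Nat.le_of_mul_le_mul_left (h2.trans h3) (by omega)
        have := hY.card_pos
        omega
      obtain ⟨y, hy, hny⟩ := exists_mem_notMem_of_card_lt_card hlt
      refine ⟨y, Set.mem_iInter₂.2 fun Z hZ => subset_convexHull ℝ _ ?_⟩
      by_contra h
      exact hny (mem_biUnion.2 ⟨Z, hZ, mem_sdiff.2 ⟨hy, h⟩⟩))
  obtain ⟨e, he⟩ := hh
  have he' := Set.mem_iInter₂.1 he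
  refine ⟨e, he' Y (mem_filter.2 ⟨mem_powerset_self _, by simpa using hY.card_pos⟩), ?_⟩
  intro H hH heH
  by_contra hlt
  have hmem : Y.filter (fun x => x ∉ H) ∈ s := by
    refine mem_filter.2 ⟨mem_powerset.2 (filter_subset _ _), ?_⟩
    have : Y \ Y.filter (fun x => x ∉ H) = Y.filter (fun x => x ∈ H) := by
      ext x; simp only [mem_sdiff, mem_filter]; tauto
    rw [this]; omega
  have hsub : ((Y.filter (fun x => x ∉ H) : Finset (E d)) : Set (E d)) ⊆ Hᶜ := by
    intro x hx; exact (mem_filter.1 (mem_coe.1 hx)).2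
  exact convexHull_min hsub hH.2 (he' _ hmem) heH

lemma separate {d : ℕ} {A B : Set (E d)} (hA : Convex ℝ A) (hA2 : IsCompact A) (hB : Convex ℝ B)
    (hB2 : IsClosed B) (h : Disjoint A B) : ∃ H : Set (E d), Hemi H ∧ A ⊆ H ∧ B ⊆ Hᶜ := by
  obtain ⟨f, u, v, h1, h2, h3⟩ := geometric_hahn_banach_compact_closed hA hA2 hB hB2 h
  refine ⟨{x | f x < u}, ⟨convex_halfSpace_lt f.isLinear u, ?_⟩, h1, ?_⟩
  · have : {x | f x < u}ᶜ = {x | u ≤ f x} := by ext x; simp
    rw [this]; exact convex_halfSpace_ge f.isLinear u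
  · intro b hb hlt
    have := h3 b hb
    have h4 : f b < u := hlt
    linarith

/-- Greedy choice of disjoint sets. -/
lemma greedy {α : Type*} [DecidableEq α] (X : Finset α) (Φ : ℕ → Finset α → Prop) (b : ℕ → ℕ)
    (m : ℕ) (h : ∀ j < m, ∀ U : Finset α, U.card ≤ ∑ i ∈ range j, b i →
      ∃ P ⊆ X \ U, P.card ≤ b j ∧ Φ j P) :
    ∃ Q : ℕ → Finset α, (∀ j < m, Q j ⊆ X ∧ Φ j (Q j)) ∧
      ∀ i < m, ∀ j < m, i ≠ j → Disjoint (Q i) (Q j) := by
  have key : ∀ k ≤ m, ∃ Q : ℕ → Finset α, (∀ j < k, Q j ⊆ X ∧ (Q j).card ≤ b j ∧ Φ j (Q j)) ∧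
      ∀ i < k, ∀ j < k, i ≠ j → Disjoint (Q i) (Q j) := by
    intro k
    induction k with
    | zero => exact fun _ => ⟨fun _ => ∅, by simp, by simp⟩
    | succ k ih =>
      intro hk
      obtain ⟨Q, h1, h2⟩ := ih (by omega)
      obtain ⟨P, hP, hPc, hPΦ⟩ := h k (by omega) ((range k).biUnion Q) 
        (card_biUnion_le.trans (sum_le_sum fun i hi => (h1 i (mem_range.1 hi)).2.1))
      have hdis : ∀ i < k, Disjoint (Q i) P := by
        intro i hi
        refine disjoint_left.2 fun x hx hxP => (mem_sdiff.1 (hP hxP)).2 ?_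
        exact mem_biUnion.2 ⟨i, mem_range.2 hi, hx⟩
      refine ⟨fun j => if j = k then P else Q j, ?_, ?_⟩
      · intro j hj
        by_cases hjk : j = k
        · subst hjk; simp only [if_true]; exact ⟨hP.trans sdiff_subset, hPc, hPΦ⟩
        · simp only [if_neg hjk]; exact h1 j (by omega)
      · intro i hi j hj hij
        by_cases hik : i = k
        · have hjk : j ≠ k := by omega
          simp only [if_pos hik, if_neg hjk]; exact (hdis j (by omega)).symm
        · by_cases hjk : j = k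
          · simp only [if_neg hik, if_pos hjk]; exact hdis i (by omega)
          · simp only [if_neg hik, if_neg hjk]; exact h2 i (by omega) j (by omega) hij
  obtain ⟨Q, h1, h2⟩ := key m le_rfl
  exact ⟨Q, fun j hj => ⟨(h1 j hj).1, (h1 j hj).2.2⟩, h2⟩

end Pool.Agent.P.MP_daa8d5_co.Lg
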